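import Mathlib

set_option autoImplicit false

namespace MP18

open MeasureTheory

/-- order statistics: `ordStat x k` is the entry number `k` (counted from `0`) of the numbers `x i`
in increasing order -/
noncomputable def ordStat {N : ℕ} (x : Fin N → ℝ) (k : Fin N) : ℝ := x (Tuple.sort x k)

/-- the class C: `μ` is the law of a positive random variable and its distribution function is
positive on `(0, ∞)` -/
structure ClassC (μ : Measure ℝ) : Prop where
  prob : IsProbabilityMeasure μ
  zero : ProbabilityTheory.cdf μ 0 = 0
  pos : ∀ x : ℝ, 0 < x → 0 < ProbabilityTheory.cdf μ x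

/-- expectation of `exp (-λ X)`, `X` the order statistic number `k` of `X* + ε_i`, where `X*` has
law `π` and the `ε_i`, `i : Fin N`, have law `μ`, all independent -/
noncomputable def EL {N : ℕ} (π μ : Measure ℝ) (lam : ℝ) (k : Fin N) : ℝ :=
  ∫ w : ℝ × (Fin N → ℝ), Real.exp (-(lam * ordStat (fun i => w.1 + w.2 i) k))
    ∂(π.prod (Measure.pi fun _ : Fin N => μ))

/-- the ratio `K` (largest over second largest) -/
noncomputable def KK (N : ℕ) (hN : 2 ≤ N) (π μ : Measure ℝ) (lam : ℝ) : ℝ :=
  EL (N := N) π μ lam ⟨N - 1, by omega⟩ / EL (N := N) π μ lam ⟨N - 2, by omega⟩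

end MP18
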